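import Pool.Agent.X144.An.Up

/-!
The critical weight of the self-avoiding polygons of the square lattice which lie in an annulus and
surround the origin.
-/

set_option autoImplicit false

namespace Pool.Agent.Results.MP_376faf_co.AnnularPolygons

open Filter Topology

/-- `ω` is an `n`-step self-avoiding walk on `ℤ²` started at the origin. -/
def IsSAW (n : ℕ) (ω : Fin (n + 1) → ℤ × ℤ) : Prop :=
  ω 0 = (0, 0) ∧
  (∀ i : Fin n, |(ω i.succ).1 - (ω i.castSucc).1| + |(ω i.succ).2 - (ω i.castSucc).2| = 1) ∧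
  Function.Injective ω

/-- `c_n`: the number of `n`-step self-avoiding walks from the origin -/
noncomputable def c (n : ℕ) : ℕ := Nat.card {ω : Fin (n + 1) → ℤ × ℤ // IsSAW n ω}

/-- the edge from `f k` to `f (k+1)` is horizontal, joins the columns `x = a` and `x = a + 1`, and
has height larger than `b`: it lies above the unit cell `[a, a+1] × [b, b+1]` -/
def Above (m : ℕ) (f : ZMod m → ℤ × ℤ) (a b : ℤ) (k : ZMod m) : Prop :=
  (((f k).1 = a ∧ (f (k + 1)).1 = a + 1) ∨ ((f k).1 = a + 1 ∧ (f (k + 1)).1 = a)) ∧ b < (f k).2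

/-- the unit cell `[a, a+1] × [b, b+1]` is enclosed by the loop: the vertical ray from the cell
upwards crosses an odd number of edges -/
def Encl (m : ℕ) (f : ZMod m → ℤ × ℤ) (c : ℤ × ℤ) : Prop :=
  Odd (Nat.card {k : ZMod m // Above m f c.1 c.2 k})

/-- the annulus of the vertices `(x, y)` with `r < max (|x|, |y|) ≤ R` -/
def Ann (r R : ℕ) : Set (ℤ × ℤ) := {p | (r : ℤ) < max |p.1| |p.2| ∧ max |p.1| |p.2| ≤ R}

/-- the self-avoiding polygons of perimeter `m` in `A` which surround the unit cell at the origin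
(so they surround the hole of the annulus if `A` is an annulus), with a starting point and an
orientation: every polygon is counted `2 m` times -/
def Around (m : ℕ) (A : Set (ℤ × ℤ)) : Set (ZMod m → ℤ × ℤ) :=
  {f | Function.Injective f ∧
    (∀ i : ZMod m, |(f (i + 1)).1 - (f i).1| + |(f (i + 1)).2 - (f i).2| = 1) ∧
    (∀ i, f i ∈ A) ∧ Encl m f (0, 0)}

/-- the `k`-tuples of pairwise disjoint polygons in `A` around the origin with the perimeters
`2 n_1, ..., 2 n_k`, with starting points and orientations: every `k`-tuple is counted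
`4 n_1 ⋯ 4 n_k` times -/
def Nested (k : ℕ) (n : Fin k → ℕ) (A : Set (ℤ × ℤ)) :
    Set ((i : Fin k) → ZMod (2 * n i) → ℤ × ℤ) :=
  {F | (∀ i, F i ∈ Around (2 * n i) A) ∧ ∀ i j, i ≠ j → ∀ s t, F i s ≠ F j t}

/-- the sum of `μ^(-|P_1| - ... - |P_k|)` over the `k`-tuples of pairwise disjoint polygons `P_i` in
the annulus `Ann r R` around the origin; `|P|` is the perimeter of `P` (it is even, and at most the
number `(2 R + 1)^2` of the vertices) -/
noncomputable def Z (μ : ℝ) (k r R : ℕ) : ℝ :=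
  ∑ n ∈ Fintype.piFinset (fun _ : Fin k => Finset.Icc 2 ((2 * R + 1) ^ 2)),
    ((Nested k n (Ann r R)).ncard : ℝ) / ∏ i, (4 * (n i : ℝ) * μ ^ (2 * n i))

theorem c_eq (n : ℕ) : c n = TH795.EP.c n := TH795.EP2.card_walks n

theorem Z_eq (μ : ℝ) (k r R : ℕ) : Z μ k r R = X144.An.Zk μ k r R := rfl

/-- **Theorem.** Let `μ = lim c_n^(1/n)`, and let `Z_k(r, R)` be the sum of
`μ^(-|P_1| - ... - |P_k|)` over the `k`-tuples of pairwise disjoint self-avoiding polygons which lie
in the annulus `r < max (|x|, |y|) ≤ R` and surround the origin.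
(1) For all `k` and `η > 0` there are `K > 0` and `r₀` such that
`Z_k(r, R) ≥ exp (- K (log r)^6)` for all `r ≥ r₀` and `R ≥ (1 + η) r`.
(2) There is `K > 0` such that `Z_k(r, R) ≤ (K (R^2 / r) log R)^k` for all `k` and `1 ≤ r < R`. -/
theorem result : ∃ μ : ℝ, 0 < μ ∧
    Tendsto (fun n : ℕ => (c n : ℝ) ^ (1 / (n : ℝ))) atTop (𝓝 μ) ∧
    (∀ (k : ℕ) (η : ℝ), 0 < η → ∃ K : ℝ, 0 < K ∧ ∃ r₀ : ℕ, ∀ r R : ℕ, r₀ ≤ r →
      (1 + η) * r ≤ R → Real.exp (-(K * Real.log r ^ 6)) ≤ Z μ k r R) ∧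
    ∃ K : ℝ, 0 < K ∧ ∀ k r R : ℕ, 1 ≤ r → r < R →
      Z μ k r R ≤ (K * ((R : ℝ) ^ 2 / r) * Real.log R) ^ k := by
  refine ⟨H981.mu, H981.mu_pos, ?_, ?_, ?_⟩
  · have h := H981.tendsto_root
    refine h.congr ?_
    intro n
    rw [c_eq, TH795.EP.c_eq]
  · intro k η hη
    exact X144.An.lower_ann k hη
  · exact X144.An.upper_ann

end Pool.Agent.Results.MP_376faf_co.AnnularPolygons
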