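import Pool.Agent.X135.SC.Net3

/-!
Self-avoiding polygons with attached walks and polygons on the square lattice (tadpoles, figure
eights, loops with two tails, dumbbells): for all prescribed lengths of the pieces, with total
length `T`, their number is `μ^T` up to a factor `exp(± K (log T)^2)`.
-/

set_option autoImplicit false

namespace Pool.Agent.Results.MP_376faf_co.LoopsWithTails

open Filter Topology

/-- The self-avoiding walks with `n` steps on `ℤ²` which start at the origin. -/
def Walk (n : ℕ) : Set (Fin (n + 1) → ℤ × ℤ) :=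
  {w | w 0 = 0 ∧ Function.Injective w ∧
    ∀ i : Fin n, |(w i.succ).1 - (w i.castSucc).1| + |(w i.succ).2 - (w i.castSucc).2| = 1}

/-- The closed self-avoiding loops with `N` steps on `ℤ²` rooted at the origin, that is, the
self-avoiding polygons of perimeter `N` through the origin with an orientation. -/
def Loop (N : ℕ) : Set (ZMod N → ℤ × ℤ) :=
  {f | f 0 = 0 ∧ Function.Injective f ∧
    ∀ i : ZMod N, |(f (i + 1)).1 - (f i).1| + |(f (i + 1)).2 - (f i).2| = 1}

/-- Tadpoles: a loop and a walk which meet at the origin only. -/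
def Tadpoles (N n : ℕ) : Set ((ZMod N → ℤ × ℤ) × (Fin (n + 1) → ℤ × ℤ)) :=
  {q | q.1 ∈ Loop N ∧ q.2 ∈ Walk n ∧ Set.range q.1 ∩ Set.range q.2 = {0}}

/-- Figure eights: two loops which meet at the origin only. -/
def FigureEights (N N' : ℕ) : Set ((ZMod N → ℤ × ℤ) × (ZMod N' → ℤ × ℤ)) :=
  {q | q.1 ∈ Loop N ∧ q.2 ∈ Loop N' ∧ Set.range q.1 ∩ Set.range q.2 = {0}}

/-- A loop with two tails: a loop and two walks, any two of which meet at the origin only. -/
def TwoTails (N n n' : ℕ) :
    Set ((ZMod N → ℤ × ℤ) × (Fin (n + 1) → ℤ × ℤ) × (Fin (n' + 1) → ℤ × ℤ)) :=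
  {q | q.1 ∈ Loop N ∧ q.2.1 ∈ Walk n ∧ q.2.2 ∈ Walk n' ∧
    Set.range q.1 ∩ Set.range q.2.1 = {0} ∧ Set.range q.1 ∩ Set.range q.2.2 = {0} ∧
    Set.range q.2.1 ∩ Set.range q.2.2 = {0}}

/-- Dumbbells: two disjoint loops joined by a walk, which meets the first loop only at its starting
point, the origin, and the second one only at its end point `w n`; the second loop is the
translate by `w n` of the loop `g`. -/
def Dumbbells (N n N' : ℕ) :
    Set ((ZMod N → ℤ × ℤ) × (Fin (n + 1) → ℤ × ℤ) × (ZMod N' → ℤ × ℤ)) :=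
  {q | q.1 ∈ Loop N ∧ q.2.1 ∈ Walk n ∧ q.2.2 ∈ Loop N' ∧
    Set.range q.1 ∩ Set.range q.2.1 = {0} ∧
    Set.range q.2.1 ∩ Set.range (fun i => q.2.1 (Fin.last n) + q.2.2 i) = {q.2.1 (Fin.last n)} ∧
    Set.range q.1 ∩ Set.range (fun i => q.2.1 (Fin.last n) + q.2.2 i) = ∅}

/-- **Theorem.** On `ℤ²` the connective constant `μ = lim c_n^(1/n)` exists, and there is a
constant `K` such that, for all even `N, N' ≥ 4` and all `n, n' ≥ 1`, the numbers of tadpoles,
figure eights, loops with two tails and dumbbells with the prescribed lengths of all pieces are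
between `μ^T exp(-K (log T)^2)` and `μ^T exp(K (log T)^2)`, where `T` is the total length. More
precisely they are at most the product of the numbers of the pieces, which is at most
`μ^T exp(K (log T)^2)`. Hence independent uniform pieces meet only at the joints with probability
at least `exp(-2 K (log T)^2)`. -/
theorem result : ∃ μ : ℝ, 0 < μ ∧
    Tendsto (fun n : ℕ => ((Walk n).ncard : ℝ) ^ ((1 : ℝ) / (n : ℝ))) atTop (𝓝 μ) ∧
    ∃ K : ℝ, ∀ N N' n n' : ℕ, Even N → Even N' → 4 ≤ N → 4 ≤ N' → 1 ≤ n → 1 ≤ n' →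
      (μ ^ (N + n) * Real.exp (-(K * Real.log ((N + n : ℕ) : ℝ) ^ 2)) ≤ (Tadpoles N n).ncard ∧
        (Tadpoles N n).ncard ≤ (Loop N).ncard * (Walk n).ncard ∧
        ((Loop N).ncard * (Walk n).ncard : ℝ) ≤
          μ ^ (N + n) * Real.exp (K * Real.log ((N + n : ℕ) : ℝ) ^ 2)) ∧
      (μ ^ (N + N') * Real.exp (-(K * Real.log ((N + N' : ℕ) : ℝ) ^ 2)) ≤
          (FigureEights N N').ncard ∧
        (FigureEights N N').ncard ≤ (Loop N).ncard * (Loop N').ncard ∧
        ((Loop N).ncard * (Loop N').ncard : ℝ) ≤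
          μ ^ (N + N') * Real.exp (K * Real.log ((N + N' : ℕ) : ℝ) ^ 2)) ∧
      (μ ^ (N + n + n') * Real.exp (-(K * Real.log ((N + n + n' : ℕ) : ℝ) ^ 2)) ≤
          (TwoTails N n n').ncard ∧
        (TwoTails N n n').ncard ≤ (Loop N).ncard * ((Walk n).ncard * (Walk n').ncard) ∧
        ((Loop N).ncard * ((Walk n).ncard * (Walk n').ncard) : ℝ) ≤
          μ ^ (N + n + n') * Real.exp (K * Real.log ((N + n + n' : ℕ) : ℝ) ^ 2)) ∧
      (μ ^ (N + n + N') * Real.exp (-(K * Real.log ((N + n + N' : ℕ) : ℝ) ^ 2)) ≤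
          (Dumbbells N n N').ncard ∧
        (Dumbbells N n N').ncard ≤ (Loop N).ncard * ((Walk n).ncard * (Loop N').ncard) ∧
        ((Loop N).ncard * ((Walk n).ncard * (Loop N').ncard) : ℝ) ≤
          μ ^ (N + n + N') * Real.exp (K * Real.log ((N + n + N' : ℕ) : ℝ) ^ 2)) := by
  refine ⟨H981.mu, H981.mu_pos, ?_, ?_⟩
  · have h : ∀ n : ℕ, ((Walk n).ncard : ℝ) = H981.cr' n := fun n => X135.Net.walk_ncard n
    simp only [h]
    exact H981.tendsto_root
  obtain ⟨K, hK, h⟩ := X135.Net.bounds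
  have hμ := H981.mu_pos
  refine ⟨3 * K, fun N N' n n' hN hN' h4 h4' hn hn' => ?_⟩
  have : NeZero N := ⟨by omega⟩
  have : NeZero N' := ⟨by omega⟩
  have two : ∀ (T a b : ℕ) (x y : ℝ), T = a + b → 0 ≤ x → 0 ≤ y →
      (H981.mu ^ a * Real.exp (-(K * Real.log T ^ 2)) ≤ x →
        H981.mu ^ b * Real.exp (-(K * Real.log T ^ 2)) ≤ y →
        H981.mu ^ T * Real.exp (-(3 * K * Real.log T ^ 2)) ≤ x * y) ∧
      (x ≤ H981.mu ^ a * Real.exp (K * Real.log T ^ 2) →
        y ≤ H981.mu ^ b * Real.exp (K * Real.log T ^ 2) →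
        x * y ≤ H981.mu ^ T * Real.exp (3 * K * Real.log T ^ 2)) := by
    intro T a b x y hT hx hy
    have hp : 0 ≤ K * Real.log T ^ 2 := by positivity
    constructor
    · intro h1 h2
      refine le_trans ?_ (mul_le_mul h1 h2 (by positivity) hx)
      rw [mul_mul_mul_comm, ← pow_add, ← hT, ← Real.exp_add]
      refine mul_le_mul_of_nonneg_left (Real.exp_le_exp.2 ?_) (by positivity)
      linarith
    · intro h1 h2
      refine (mul_le_mul h1 h2 hy (by positivity)).trans ?_
      rw [mul_mul_mul_comm, ← pow_add, ← hT, ← Real.exp_add]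
      refine mul_le_mul_of_nonneg_left (Real.exp_le_exp.2 ?_) (by positivity)
      linarith
  have ring3 : ∀ A B C E : ℝ, A * E * (B * E * (C * E)) = (A * B * C) * (E * E * E) := by
    intro A B C E
    ring
  have three : ∀ (T a b c : ℕ) (x y z : ℝ), T = a + b + c → 0 ≤ x → 0 ≤ y → 0 ≤ z →
      (H981.mu ^ a * Real.exp (-(K * Real.log T ^ 2)) ≤ x →
        H981.mu ^ b * Real.exp (-(K * Real.log T ^ 2)) ≤ y →
        H981.mu ^ c * Real.exp (-(K * Real.log T ^ 2)) ≤ z →
        H981.mu ^ T * Real.exp (-(3 * K * Real.log T ^ 2)) ≤ x * (y * z)) ∧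
      (x ≤ H981.mu ^ a * Real.exp (K * Real.log T ^ 2) →
        y ≤ H981.mu ^ b * Real.exp (K * Real.log T ^ 2) →
        z ≤ H981.mu ^ c * Real.exp (K * Real.log T ^ 2) →
        x * (y * z) ≤ H981.mu ^ T * Real.exp (3 * K * Real.log T ^ 2)) := by
    intro T a b c x y z hT hx hy hz
    constructor
    · intro h1 h2 h3
      refine le_trans ?_ (mul_le_mul h1 (mul_le_mul h2 h3 (by positivity) hy)
        (by positivity) hx)
      rw [ring3, ← pow_add, ← pow_add, ← hT, ← Real.exp_add, ← Real.exp_add]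
      refine mul_le_mul_of_nonneg_left (Real.exp_le_exp.2 ?_) (by positivity)
      linarith
    · intro h1 h2 h3
      refine (mul_le_mul h1 (mul_le_mul h2 h3 hz (by positivity)) (by positivity)
        (by positivity)).trans ?_
      rw [ring3, ← pow_add, ← pow_add, ← hT, ← Real.exp_add, ← Real.exp_add]
      refine mul_le_mul_of_nonneg_left (Real.exp_le_exp.2 ?_) (by positivity)
      linarith
  refine ⟨⟨?_, X135.Net.tad_le N n, ?_⟩, ⟨?_, X135.Net.eight_le N N', ?_⟩,
    ⟨?_, X135.Net.tails_le N n n', ?_⟩, ⟨?_, X135.Net.dumb_le N n N', ?_⟩⟩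
  · obtain ⟨-, h2, -, -, h5, -⟩ := h (N + n) (by omega)
    refine le_trans ?_ (show ((X135.Net.LoopP N).ncard : ℝ) * (X135.Net.WalkP n).ncard ≤
      (Tadpoles N n).ncard by exact_mod_cast X135.Net.tad_ge N n)
    exact (two (N + n) N n _ _ rfl (by positivity) (by positivity)).1
      (h5 N hN h4 (by omega)) (h2 n (by omega))
  · obtain ⟨h1, -, -, h4', -, -⟩ := h (N + n) (by omega)
    exact (two (N + n) N n _ _ rfl (by positivity) (by positivity)).2
      (h4' N hN h4 (by omega)) (h1 n (by omega))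
  · obtain ⟨-, -, -, -, h5, -⟩ := h (N + N') (by omega)
    refine le_trans ?_ (show ((X135.Net.LoopP N).ncard : ℝ) * (X135.Net.LoopP N').ncard ≤
      (FigureEights N N').ncard by exact_mod_cast X135.Net.eight_ge N N')
    exact (two (N + N') N N' _ _ rfl (by positivity) (by positivity)).1
      (h5 N hN h4 (by omega)) (h5 N' hN' h4' (by omega))
  · obtain ⟨-, -, -, h4'', -, -⟩ := h (N + N') (by omega)
    exact (two (N + N') N N' _ _ rfl (by positivity) (by positivity)).2
      (h4'' N hN h4 (by omega)) (h4'' N' hN' h4' (by omega))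
  · obtain ⟨-, -, -, -, h5, h6⟩ := h (N + n + n') (by omega)
    refine le_trans ?_ (show ((X135.Net.LoopP N).ncard : ℝ) * (X135.Net.ForkP n n').ncard ≤
      (TwoTails N n n').ncard by exact_mod_cast X135.Net.tails_ge N n n')
    exact (two (N + n + n') N (n + n') _ _ (by ring) (by positivity) (by positivity)).1
      (h5 N hN h4 (by omega)) (h6 n n' (by omega) (by omega))
  · obtain ⟨h1, -, -, h4'', -, -⟩ := h (N + n + n') (by omega)
    exact (three (N + n + n') N n n' _ _ _ rfl (by positivity) (by positivity)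
      (by positivity)).2 (h4'' N hN h4 (by omega)) (h1 n (by omega)) (h1 n' (by omega))
  · obtain ⟨-, -, h3, -, h5, -⟩ := h (N + n + N') (by omega)
    refine le_trans ?_ (show ((X135.Net.LoopP N).ncard : ℝ) * ((X135.Net.BrP n).ncard *
      (X135.Net.LoopP N').ncard) ≤ (Dumbbells N n N').ncard by
        exact_mod_cast X135.Net.dumb_ge N n N' hn)
    exact (three (N + n + N') N n N' _ _ _ rfl (by positivity) (by positivity)
      (by positivity)).1 (h5 N hN h4 (by omega)) (h3 n (by omega)) (h5 N' hN' h4' (by omega))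
  · obtain ⟨h1, -, -, h4'', -, -⟩ := h (N + n + N') (by omega)
    exact (three (N + n + N') N n N' _ _ _ rfl (by positivity) (by positivity)
      (by positivity)).2 (h4'' N hN h4 (by omega)) (h1 n (by omega)) (h4'' N' hN' h4' (by omega))

end Pool.Agent.Results.MP_376faf_co.LoopsWithTails
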