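import Pool.Agent.X44.GR.V3

/-!
# Self-avoiding polygons through the origin in a domain of the square lattice

For the polygons through the origin which stay in a domain `D` (a half-plane with the origin on its
boundary, the plane with a slit, the whole plane, or any set for which the number of polygons is at least
`μ^m exp (- A (log m)^s)` at the perimeters between `n / 2` and `2 n`): ratio limit theorem with the rate
`(log n)^s / √n`, and the laws of the uniform polygons with the perimeters `n + 1` and `n + 3` are close,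
for the two arcs at the origin and for Lipschitz functionals of the rescaled polygon.
-/

set_option autoImplicit false
set_option linter.unusedVariables false

namespace Pool.Agent.Results.MP_376faf_co.PolygonsInDomains

open Filter Topology

/-- The `n`-step self-avoiding walks on `ℤ²` from the origin in `D`. -/
def walks (D : Set (ℤ × ℤ)) (n : ℕ) : Set (Fin (n + 1) → ℤ × ℤ) :=
  {w | w 0 = 0 ∧ Function.Injective w ∧ (∀ i : Fin n,
    |(w i.succ).1 - (w i.castSucc).1| + |(w i.succ).2 - (w i.castSucc).2| = 1) ∧ ∀ i, w i ∈ D}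

/-- The `n`-step self-avoiding walks in `D` from the origin to one of its neighbours. For odd `n ≥ 3`
these are the self-avoiding polygons with `n + 1` edges in `D` which pass through the origin, with an
orientation (every polygon through the origin is counted twice). -/
def polys (D : Set (ℤ × ℤ)) (n : ℕ) : Set (Fin (n + 1) → ℤ × ℤ) :=
  {w | w ∈ walks D n ∧ |(w (Fin.last n)).1| + |(w (Fin.last n)).2| = 1}

/-- The site at the time `k` (the last site if `k > n`). -/
def site {n : ℕ} (w : Fin (n + 1) → ℤ × ℤ) (k : ℕ) : ℤ × ℤ := w ⟨min k n, by omega⟩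

/-- The mean of `g` under the uniform law on the polygons. -/
noncomputable def mean (D : Set (ℤ × ℤ)) (n : ℕ) (g : (Fin (n + 1) → ℤ × ℤ) → ℝ) : ℝ :=
  (∑ᶠ w ∈ polys D n, g w) / ((polys D n).ncard : ℝ)

/-- The rescaled polygon as a path with the time parameter `t` in `[0, 1]`: the site at the time
`⌊n t⌋`, divided by `R`. -/
noncomputable def path {n : ℕ} (R : ℝ) (w : Fin (n + 1) → ℤ × ℤ) (t : ℝ) : ℝ × ℝ :=
  (((site w ⌊(n : ℝ) * t⌋₊).1 : ℝ) / R, ((site w ⌊(n : ℝ) * t⌋₊).2 : ℝ) / R)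

/-- The ratio limit theorem and the merging of the laws of the polygons with `n + 1` and with `n + 3`
edges in the domain `D`, with the constant `K` and the exponent `s`:
* `ratio`: the ratio of the numbers is `μ² + O((log n)^s / √n)`;
* `arcs`: for every `k` and every function `G` with values in `[0, 1]` of the two arcs with `k` edges at
  the origin, the means differ at most by `K ((log n)^s ((log n)^s + k) / n)^(1/2)`;
* `path`: for every `R > 0` and every function `F` of the path rescaled by `R` with values in `[0, 1]`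
  which is 1-Lipschitz for the sup distance on `[0, 1]`, the means differ at most by
  `K ((log n)^s / √n + ((log n)^s / R)^(1/2))`. -/
structure Merging (K : ℝ) (s : ℕ) (μ : ℝ) (D : Set (ℤ × ℤ)) (n : ℕ) : Prop where
  ratio : |((polys D (n + 2)).ncard : ℝ) / ((polys D n).ncard : ℝ) - μ ^ 2| ≤
    K * (Real.log n ^ s / √n)
  arcs : ∀ (k : ℕ) (G : (Fin (k + 1) → ℤ × ℤ) → (Fin (k + 1) → ℤ × ℤ) → ℝ),
    (∀ a b, 0 ≤ G a b ∧ G a b ≤ 1) →
    |mean D (n + 2) (fun w => G (fun i => site w i) (fun i => site w (n + 2 - i))) -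
      mean D n (fun w => G (fun i => site w i) (fun i => site w (n - i)))| ≤
      K * √((Real.log n ^ s + k) * Real.log n ^ s / n)
  path : ∀ (R : ℝ) (F : (ℝ → ℝ × ℝ) → ℝ), 0 < R → (∀ x, 0 ≤ F x ∧ F x ≤ 1) →
    (∀ (x y : ℝ → ℝ × ℝ) (δ : ℝ), (∀ t, 0 ≤ t → t ≤ 1 → ‖x t - y t‖ ≤ δ) → |F x - F y| ≤ δ) →
    |mean D (n + 2) (fun w => F (path R w)) - mean D n (fun w => F (path R w))| ≤
      K * (Real.log n ^ s / √n + √(Real.log n ^ s / R))

/-- **Theorem.** Let `μ = lim c_n^(1/n)`, `c_n` the number of all `n`-step self-avoiding walks on `ℤ²`.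
(1) For all `A` and `s ≥ 2` there is `K` such that for every `D ⊆ ℤ²` and `n ≥ 3` with
`#(polys D m) ≥ μ^m exp (- A (log m)^s)` for all `m` of the parity of `n` with `n/2 ≤ m ≤ 2n`:
`Merging K s μ D n`.
(2) There is `K` with `Merging K 2 μ D n` for every odd `n ≥ 5` and every `D` which contains the
half plane `{(x, y) : y > 0, or y = 0 and x ≥ 0}`. -/
theorem result : ∃ μ : ℝ, 0 < μ ∧
    Tendsto (fun n : ℕ => ((walks Set.univ n).ncard : ℝ) ^ (1 / (n : ℝ))) atTop (𝓝 μ) ∧
    (∀ (A : ℝ) (s : ℕ), 2 ≤ s → ∃ K : ℝ, ∀ (D : Set (ℤ × ℤ)) (n : ℕ), 3 ≤ n →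
      (∀ m : ℕ, n ≤ 2 * m → m ≤ 2 * n → m % 2 = n % 2 →
        μ ^ m * Real.exp (-(A * Real.log m ^ s)) ≤ ((polys D m).ncard : ℝ)) →
      Merging K s μ D n) ∧
    (∃ K : ℝ, ∀ D : Set (ℤ × ℤ), {x : ℤ × ℤ | 0 < x.2 ∨ (x.2 = 0 ∧ 0 ≤ x.1)} ⊆ D →
      ∀ n : ℕ, 5 ≤ n → n % 2 = 1 → Merging K 2 μ D n) := by
  have hM : ∀ {K : ℝ} {s : ℕ} {μ : ℝ} {D : Set (ℤ × ℤ)} {n : ℕ},
      Pool.Agent.X44.GR.V3.Merging K s μ D n → Merging K s μ D n :=
    fun h => ⟨h.ratio, h.ends, h.path⟩
  refine ⟨H981.mu, H981.mu_pos, Pool.Agent.X44.GR.V.tendsto_mu, fun A s hs => ?_, ?_⟩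
  · obtain ⟨K, hK, h⟩ := Pool.Agent.X44.GR.V3.merging A s hs
    exact ⟨K, fun D n hn hl => hM (h D n hn hl)⟩
  · obtain ⟨A, hA, hlow⟩ := Pool.Agent.X44.GR.V3.low_half
    obtain ⟨K, hK, h⟩ := Pool.Agent.X44.GR.V3.merging A 2 le_rfl
    exact ⟨K, fun D hD n hn hodd => hM (h D n (by omega) (hlow D hD n hn hodd))⟩

end Pool.Agent.Results.MP_376faf_co.PolygonsInDomains
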