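import Pool.Agent.X204.PG

/-!
Self-avoiding polygons on the square lattice: the asymptotic form of the number of polygons has to be
checked along a sparse set of lengths only, and it follows from the asymptotic form of
`p_{4n} / p_{2n}²` along a sparse set of lengths closed under doubling.
-/

set_option autoImplicit false

namespace Pool.Agent.Results.MP_376faf_co.SparseLengths

open Filter Topology

/-- `ω` is a self-avoiding walk with `n` steps on `ℤ²`, started at the origin. -/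
def IsSAW (n : ℕ) (ω : Fin (n + 1) → ℤ × ℤ) : Prop :=
  ω 0 = (0, 0) ∧
  (∀ i : Fin n, |(ω i.succ).1 - (ω i.castSucc).1| + |(ω i.succ).2 - (ω i.castSucc).2| = 1) ∧
  Function.Injective ω

/-- the number of `n`-step self-avoiding walks on `ℤ²` started at the origin -/
noncomputable def C (n : ℕ) : ℕ := Nat.card {ω : Fin (n + 1) → ℤ × ℤ // IsSAW n ω}

/-- `f` runs once around a simple cycle of `ℤ²` with `m` edges, from the origin. -/
def IsPolygon (m : ℕ) (f : ZMod m → ℤ × ℤ) : Prop :=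
  f 0 = 0 ∧ Function.Injective f ∧
    ∀ i : ZMod m, |(f (i + 1)).1 - (f i).1| + |(f (i + 1)).2 - (f i).2| = 1

/-- the number `p_{2n}` of self-avoiding polygons of perimeter `2n`, up to translation: a polygon
has `2n` possible starting points and `2` orientations. -/
noncomputable def p (n : ℕ) : ℝ :=
  (Nat.card {f : ZMod (2 * n) → ℤ × ℤ // IsPolygon (2 * n) f} : ℝ) / (4 * (n : ℝ))

/-- the gaps of the set `S` are `o(√n)` -/
def SmallGaps (S : Set ℕ) : Prop :=
  ∀ δ : ℝ, 0 < δ → ∀ᶠ n : ℕ in atTop, ∃ m ∈ S, n ≤ m ∧ (m : ℝ) ≤ n + δ * Real.sqrt n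

/-- the gaps of the set `S` are `O(√n)` -/
def RootGaps (S : Set ℕ) : Prop :=
  ∃ M : ℝ, ∀ᶠ n : ℕ in atTop, ∃ m ∈ S, n ≤ m ∧ (m : ℝ) ≤ n + M * Real.sqrt n

/-- the gaps of the set `S` are `o(√(n log n))` -/
def LogGaps (S : Set ℕ) : Prop :=
  ∀ δ : ℝ, 0 < δ → ∀ᶠ n : ℕ in atTop, ∃ m ∈ S, n ≤ m ∧
    (m : ℝ) ≤ n + δ * Real.sqrt (n * Real.log n)

/-- `p_{2n} μ^(-2n) n^θ` -/
noncomputable def q (μ θ : ℝ) (n : ℕ) : ℝ := p n / μ ^ (2 * n) * (n : ℝ) ^ θ

/-- **Theorem.** Let `μ` be the connective constant of `ℤ²` and `p_{2n}` the number of self-avoiding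
polygons of perimeter `2n` up to translation. Let `θ` be real (for instance `5/2`), `S` a set of
natural numbers and `q n = p_{2n} μ^(-2n) n^θ`.
(1) If the gaps of `S` are `o(√n)` and `q n → c > 0` along `S`, then along all `n`.
(2) If the gaps of `S` are `O(√n)` and `a ≤ q n ≤ b` for the large `n ∈ S`, where `a > 0`, then
`a' ≤ q n ≤ b'` for all large `n`, with suitable `a' > 0` and `b'`.
(3) If the gaps of `S` are `o(√(n log n))` and `log (p_{2n} μ^(-2n)) / log n → -θ` along `S`, then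
along all `n`.
(4) If `2 n ∈ S` for `n ∈ S`, then for `c > 0`: `q n → c` along `S` if and only if
`(p_{4n} / p_{2n}²) n^(-θ) → 2^(-θ) / c` along `S`; and if moreover the gaps of `S` are `o(√n)`, then
`q n → c` along all `n` if and only if `(p_{4n} / p_{2n}²) n^(-θ) → 2^(-θ) / c` along `S`. -/
theorem result : ∃ μ : ℝ, 0 < μ ∧
    Tendsto (fun n : ℕ => (C n : ℝ) ^ (1 / (n : ℝ))) atTop (𝓝 μ) ∧
    ∀ (θ : ℝ) (S : Set ℕ),
      (∀ c : ℝ, 0 < c → SmallGaps S → Tendsto (q μ θ) (atTop ⊓ 𝓟 S) (𝓝 c) →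
        Tendsto (q μ θ) atTop (𝓝 c)) ∧
      (RootGaps S → ∀ a b : ℝ, 0 < a →
        (∀ᶠ n : ℕ in atTop, n ∈ S → a ≤ q μ θ n ∧ q μ θ n ≤ b) →
        ∃ a' b' : ℝ, 0 < a' ∧ ∀ᶠ n : ℕ in atTop, a' ≤ q μ θ n ∧ q μ θ n ≤ b') ∧
      (LogGaps S →
        Tendsto (fun n : ℕ => Real.log (p n / μ ^ (2 * n)) / Real.log n) (atTop ⊓ 𝓟 S) (𝓝 (-θ)) →
        Tendsto (fun n : ℕ => Real.log (p n / μ ^ (2 * n)) / Real.log n) atTop (𝓝 (-θ))) ∧
      ((∀ n ∈ S, 2 * n ∈ S) → ∀ c : ℝ, 0 < c →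
        (Tendsto (q μ θ) (atTop ⊓ 𝓟 S) (𝓝 c) ↔
          Tendsto (fun n : ℕ => p (2 * n) / p n ^ 2 * (n : ℝ) ^ (-θ)) (atTop ⊓ 𝓟 S)
            (𝓝 (2 ^ (-θ) / c))) ∧
        (SmallGaps S →
          (Tendsto (q μ θ) atTop (𝓝 c) ↔
            Tendsto (fun n : ℕ => p (2 * n) / p n ^ 2 * (n : ℝ) ^ (-θ)) (atTop ⊓ 𝓟 S)
              (𝓝 (2 ^ (-θ) / c))))) := by
  have hmu : 0 < H981.mu := H981.mu_pos
  obtain ⟨D, hD, k0, hK⟩ := Pool.Agent.X204.PG.kes
  have hpos : ∀ᶠ k : ℕ in atTop, 0 < Pool.Agent.X204.PG.y k := by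
    filter_upwards [eventually_ge_atTop 2] with k hk
    exact Pool.Agent.X204.PG.y_pos hk
  refine ⟨H981.mu, hmu, ?_, fun θ S => ?_⟩
  · have h := H981.tendsto_root
    simp only [H981.cr'_eq] at h
    exact h
  have hq : ∀ n : ℕ, q H981.mu θ n = Pool.Agent.X204.PG.y n / (n : ℝ) ^ (-θ) := by
    intro n
    rw [Real.rpow_neg (Nat.cast_nonneg n), div_inv_eq_mul]
    rfl
  have hq' : q H981.mu θ = fun n : ℕ => Pool.Agent.X204.PG.y n / (n : ℝ) ^ (-θ) := funext hq
  have h1 : ∀ c : ℝ, 0 < c → SmallGaps S → Tendsto (q H981.mu θ) (atTop ⊓ 𝓟 S) (𝓝 c) →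
      Tendsto (q H981.mu θ) atTop (𝓝 c) := by
    intro c hc hS h
    rw [hq'] at h ⊢
    exact Pool.Agent.X204.KF.form hK Pool.Agent.X204.PG.y_nonneg hD hpos S hS c (-θ) hc h
  refine ⟨h1, ?_, ?_, ?_⟩
  · rintro ⟨M, hM⟩ a b ha h
    obtain ⟨a', b', ha', h'⟩ := Pool.Agent.X204.KF.bounds hK Pool.Agent.X204.PG.y_nonneg hD S M hM
      (-θ) a b ha (by
        filter_upwards [h, eventually_ge_atTop 1] with n hn hn1 hnS
        have hn0 : (0 : ℝ) < n := by exact_mod_cast hn1
        have h2 := hn hnS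
        rw [hq, le_div_iff₀ (Real.rpow_pos_of_pos hn0 _),
          div_le_iff₀ (Real.rpow_pos_of_pos hn0 _)] at h2
        exact h2)
    refine ⟨a', b', ha', ?_⟩
    filter_upwards [h', eventually_ge_atTop 1] with n hn hn1
    have hn0 : (0 : ℝ) < n := by exact_mod_cast hn1
    rw [hq, le_div_iff₀ (Real.rpow_pos_of_pos hn0 _), div_le_iff₀ (Real.rpow_pos_of_pos hn0 _)]
    exact hn
  · intro hS h
    exact Pool.Agent.X204.KF.expo hK Pool.Agent.X204.PG.y_nonneg hD hpos S hS (-θ) h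
  · intro hd c hc
    -- the doubling criterion for the numbers of polygons, with growth constant `μ²`
    have hform : ∀ n : ℕ, (fun k => if k < 2 then (1 : ℝ) else p k) n /
        ((H981.mu ^ 2) ^ n * (n : ℝ) ^ (-θ)) =
        (fun k => if k < 2 then (1 : ℝ) else p k) n / H981.mu ^ (2 * n) * (n : ℝ) ^ θ := by
      intro n
      rw [← pow_mul, ← div_div, Real.rpow_neg (Nat.cast_nonneg n), div_inv_eq_mul]
    set c' : ℕ → ℝ := fun k => if k < 2 then (1 : ℝ) else p k with hc'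
    have hce : ∀ n : ℕ, 2 ≤ n → c' n = p n := fun n hn => by
      simp only [hc']
      rw [if_neg (by omega)]
    have hcpos : ∀ n : ℕ, 1 ≤ n → 0 < c' n := by
      intro n _
      simp only [hc']
      split_ifs with h
      · exact one_pos
      · exact Pool.Agent.H739K.PP_pos (by omega)
    have hsub : Tendsto (fun n : ℕ => Real.log (c' n / (H981.mu ^ 2) ^ n) / n) atTop (𝓝 0) := by
      refine Pool.Agent.X204.PG.log_tend.congr' ?_
      filter_upwards [eventually_ge_atTop 2] with n hn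
      rw [hce n hn, ← pow_mul]
      rfl
    have hmem : ∀ᶠ n : ℕ in atTop ⊓ 𝓟 S, 2 ≤ n :=
      (eventually_ge_atTop 2).filter_mono inf_le_left
    have hiff : Tendsto (q H981.mu θ) (atTop ⊓ 𝓟 S) (𝓝 c) ↔
        Tendsto (fun n : ℕ => p (2 * n) / p n ^ 2 * (n : ℝ) ^ (-θ)) (atTop ⊓ 𝓟 S)
          (𝓝 (2 ^ (-θ) / c)) := by
      constructor
      · intro h
        have h2 := Pool.Agent.X204.DBL.double_conv (c := c') (μ := H981.mu ^ 2) (by positivity) S hd
          (-θ) c hc (by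
            refine h.congr' ?_
            filter_upwards [hmem] with n hn
            rw [hform, hce n hn]
            rfl)
        refine h2.congr' ?_
        filter_upwards [hmem] with n hn
        rw [hce n hn, hce (2 * n) (by omega)]
      · intro h
        have hL : 0 < (2 : ℝ) ^ (-θ) / c := div_pos (Real.rpow_pos_of_pos (by norm_num) _) hc
        have h2 := Pool.Agent.X204.DBL.double (c := c') (μ := H981.mu ^ 2) (by positivity) hcpos hsub
          S hd (-θ) _ hL (by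
            refine h.congr' ?_
            filter_upwards [hmem] with n hn
            rw [hce n hn, hce (2 * n) (by omega)])
        have e : (2 : ℝ) ^ (-θ) / (2 ^ (-θ) / c) = c := by
          have := (Real.rpow_pos_of_pos (show (0 : ℝ) < 2 by norm_num) (-θ)).ne'
          have := hc.ne'
          field_simp
        rw [e] at h2
        refine h2.congr' ?_
        filter_upwards [hmem] with n hn
        rw [hform, hce n hn]
        rfl
    refine ⟨hiff, fun hS => ⟨fun h => hiff.1 (h.mono_left inf_le_left), fun h => ?_⟩⟩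
    exact h1 c hc hS (hiff.2 h)

end Pool.Agent.Results.MP_376faf_co.SparseLengths
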